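import Pool.Agent.H.MP_96bc49_an.C

set_option autoImplicit false
open Set Filter Topology Asymptotics

namespace Pool.Agent.Results.MP_96bc49_an.All

noncomputable def sym {n : ℕ} (l : Fin n → ℂ) : Fin n → ℂ :=
  fun k => ∑ S ∈ Finset.powersetCard (k + 1) Finset.univ, ∏ i ∈ S, l i

def Gn (n : ℕ) : Set (Fin n → ℂ) := sym '' {l | ∀ i, ‖l i‖ < 1}

theorem result (n : ℕ) (p : Fin n → ℂ) (hp : p ∈ frontier (Gn n)) (F : (Fin n → ℂ) → Fin n → ℂ)
    (hF : DifferentiableOn ℂ F (Gn n)) (hm : MapsTo F (Gn n) (Gn n))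
    (h : (fun z => F z - z) =o[𝓝[Gn n] p] fun z => ‖z - p‖ ^ 3) : ∀ z ∈ Gn n, F z = z :=
  Pool.Agent.H.MP_96bc49_an.main hp hF hm h

end Pool.Agent.Results.MP_96bc49_an.All
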